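import Pool.Agent.TI.Defs

open Set Topology

namespace TI

universe u v w

/-- TI-1. If `c` is in the closure of the union of an increasing family of closed subsets of a
product of compact spaces with property `C`, then on every finite set of coordinates `c` agrees
with a point of one of these sets. -/
theorem exists_agree (W : Type v) [LinearOrder W] (I : Type w) (P : I → Type u)
    [∀ i, TopologicalSpace (P i)] [∀ i, CompactSpace (P i)] [∀ i, T2Space (P i)]
    (hC : ∀ i, PropC W (P i)) (R : Finset I) (A : W → Set (∀ i, P i)) (hm : Monotone A)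
    (hc : ∀ w, IsClosed (A w)) (c : ∀ i, P i) (hcl : c ∈ closure (⋃ w, A w)) :
    ∃ w, ∃ z ∈ A w, ∀ i ∈ R, z i = c i := by
  classical
  induction R using Finset.induction_on generalizing A c with
  | empty =>
    obtain ⟨z, hz⟩ := closure_nonempty_iff.1 ⟨c, hcl⟩
    obtain ⟨w, hw⟩ := mem_iUnion.1 hz
    exact ⟨w, z, hw, by simp⟩
  | insert i R' hi ih =>
    have key : ∀ V : Set (P i), V ∈ 𝓝 (c i) → IsClosed V →
        ∃ w, ∃ z ∈ A w, z i ∈ V ∧ ∀ j ∈ R', z j = c j := by
      intro V hV hVc
      have hcont : Continuous (fun z : (∀ i, P i) => z i) := continuous_apply i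
      obtain ⟨w, z, hz, h⟩ := ih (fun w => A w ∩ {z | z i ∈ V})
        (fun w w' hww => inter_subset_inter_left _ (hm hww))
        (fun w => (hc w).inter (hVc.preimage hcont)) c (by
          rw [← iUnion_inter]
          rw [mem_closure_iff_nhds] at hcl ⊢
          intro N hN
          have hN2 : N ∩ {z : (∀ i, P i) | z i ∈ V} ∈ 𝓝 c :=
            Filter.inter_mem hN (hcont.continuousAt hV)
          obtain ⟨z, ⟨hz1, hz2⟩, hz3⟩ := hcl _ hN2
          exact ⟨z, hz1, hz3, hz2⟩)
      exact ⟨w, z, hz.1, hz.2, h⟩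
    have hcl' : IsClosed {z : (∀ i, P i) | ∀ j ∈ R', z j = c j} := by
      simp only [ofPred_forall]
      exact isClosed_biInter fun j _ => isClosed_eq (continuous_apply j) continuous_const
    have hB := hC i (fun w => (fun z : (∀ i, P i) => z i) '' (A w ∩ {z | ∀ j ∈ R', z j = c j}))
      (fun w w' hww => image_mono (inter_subset_inter_left _ (hm hww)))
      (fun w => (((hc w).inter hcl').isCompact.image (continuous_apply i)).isClosed)
    have hmem : c i ∈ closure (⋃ w, (fun z : (∀ i, P i) => z i) ''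
        (A w ∩ {z | ∀ j ∈ R', z j = c j})) := by
      rw [mem_closure_iff_nhds]
      intro N hN
      obtain ⟨V, ⟨hV1, hV2⟩, hVN⟩ := (closed_nhds_basis (c i)).mem_iff.1 hN
      obtain ⟨w, z, hz, hzV, hzR⟩ := key V hV1 hV2
      exact ⟨z i, hVN hzV, mem_iUnion.2 ⟨w, z, ⟨hz, hzR⟩, rfl⟩⟩
    rw [hB.closure_eq] at hmem
    obtain ⟨w, z, ⟨hz, hzR⟩, hzi⟩ := mem_iUnion.1 hmem
    refine ⟨w, z, hz, fun j hj => ?_⟩
    rcases Finset.mem_insert.1 hj with rfl | hj
    · exact hzi
    · exact hzR j hj

end TI
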