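import Pool.Agent.TI.Defs

namespace TI

universe u v

/-- Countably many bounded conditions have a common bound. -/
theorem root_bound (W : Type v) [LinearOrder W] [Nonempty W] (hW : CofBig W) {ι : Type u}
    (C : Set ι) (hC : C.Countable) (P : ι → W → Prop) (hP : ∀ i ∈ C, ∃ w, ∀ s, w ≤ s → ¬ P i s) :
    ∃ w, ∀ i ∈ C, ∀ s, w ≤ s → ¬ P i s := by
  choose! b hb using hP
  obtain ⟨w, hw⟩ := hW (b '' C) (hC.image b)
  refine ⟨w, fun i hi s hs => hb i hi s (le_trans (hw ⟨i, hi, rfl⟩) hs)⟩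

/-- TI-3. A root for a family of finite sets indexed by a linear order all of whose countable
subsets are bounded. -/
theorem exists_root (W : Type v) [LinearOrder W] [Nonempty W] (hW : CofBig W) (I : Type u)
    (J : W → Finset I) (S : Set W) (hS : ∀ w : W, ∃ s ∈ S, w ≤ s) :
    ∃ R : Finset I, ∀ C : Set I, C.Countable → ∀ w : W,
      ∃ s ∈ S, w ≤ s ∧ ∀ i ∈ J s, i ∈ C → i ∈ R := by
  classical
  -- an unbounded subfamily with constant cardinality
  obtain ⟨N, hN⟩ : ∃ N : ℕ, ∀ w : W, ∃ s ∈ S, w ≤ s ∧ (J s).card = N := by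
    by_contra hcon
    push Not at hcon
    obtain ⟨w, hw⟩ := root_bound W hW (ι := ℕ) Set.univ Set.countable_univ
      (fun N s => s ∈ S ∧ (J s).card = N) (by
        intro N _
        obtain ⟨w, hw⟩ := hcon N
        exact ⟨w, fun s hs h => hw s h.1 hs h.2⟩)
    obtain ⟨s, hs, hws⟩ := hS w
    exact hw (J s).card (Set.mem_univ _) s hws ⟨hs, rfl⟩
  -- a maximal root
  let Q : ℕ → Prop := fun n => ∃ R : Finset I, R.card = n ∧
    ∀ w : W, ∃ s ∈ S, w ≤ s ∧ (J s).card = N ∧ R ⊆ J s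
  have hQ0 : Q 0 := by
    refine ⟨∅, rfl, fun w => ?_⟩
    obtain ⟨s, h1, h2, h3⟩ := hN w
    exact ⟨s, h1, h2, h3, Finset.empty_subset _⟩
  have hQN : ∀ n, Q n → n ≤ N := by
    rintro n ⟨R, hR, h⟩
    obtain ⟨w0⟩ := ‹Nonempty W›
    obtain ⟨s, _, _, h3, h4⟩ := h w0
    rw [← hR, ← h3]
    exact Finset.card_le_card h4
  obtain ⟨R, hRc, hR⟩ : Q (Nat.findGreatest Q N) := Nat.findGreatest_spec (Nat.zero_le N) hQ0
  have hmax : ∀ i, i ∉ R → ∃ w, ∀ s, w ≤ s →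
      ¬ (s ∈ S ∧ (J s).card = N ∧ R ⊆ J s ∧ i ∈ J s) := by
    intro i hi
    by_contra hcon
    push Not at hcon
    have h1 : Q (Nat.findGreatest Q N + 1) := by
      refine ⟨insert i R, ?_, fun w => ?_⟩
      · rw [Finset.card_insert_of_notMem hi, hRc]
      · obtain ⟨s, h2, h3, h4, h5, h6⟩ := hcon w
        exact ⟨s, h3, h2, h4, Finset.insert_subset h6 h5⟩
    have h2 := Nat.le_findGreatest (hQN _ h1) h1
    omega
  refine ⟨R, ?_⟩
  intro C hC w
  obtain ⟨b, hb⟩ := root_bound W hW (C \ (R : Set I)) (hC.mono Set.sdiff_subset)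
    (fun i s => s ∈ S ∧ (J s).card = N ∧ R ⊆ J s ∧ i ∈ J s) (by
      intro i hi
      exact hmax i (fun h => hi.2 (Finset.mem_coe.2 h)))
  obtain ⟨s, h1, h2, h3, h4⟩ := hR (max w b)
  refine ⟨s, h1, le_trans (le_max_left _ _) h2, ?_⟩
  intro i hi hiC
  by_contra hiR
  exact hb i ⟨hiC, fun h => hiR (Finset.mem_coe.1 h)⟩ s (le_trans (le_max_right _ _) h2)
    ⟨h1, h3, h4, hi⟩

end TI
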