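import Pool.Agent.TI.Defs

namespace TI

universe u w

/-- TI-2. A continuous real function on a product of compact spaces depends, up to `ε`, on
finitely many coordinates only. -/
theorem exists_supp (I : Type w) (P : I → Type u)
    [∀ i, TopologicalSpace (P i)] [∀ i, CompactSpace (P i)]
    (G : (∀ i, P i) → ℝ) (hG : Continuous G) (ε : ℝ) (hε : 0 < ε) :
    ∃ J : Finset I, ∀ x y : ∀ i, P i, (∀ i ∈ J, x i = y i) → |G x - G y| < ε := by
  classical
  have hbox : ∀ z : ∀ i, P i, ∃ (J : Finset I) (u : ∀ i, Set (P i)),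
      (∀ i ∈ J, IsOpen (u i) ∧ z i ∈ u i) ∧
        (J : Set I).pi u ⊆ {y | |G y - G z| < ε / 2} := by
    intro z
    have hopen : IsOpen {y : ∀ i, P i | |G y - G z| < ε / 2} :=
      isOpen_lt ((hG.sub continuous_const).abs) continuous_const
    have hz : z ∈ {y : ∀ i, P i | |G y - G z| < ε / 2} := by
      simp only [Set.mem_ofPred_eq, sub_self, abs_zero]
      linarith
    exact isOpen_pi_iff.1 hopen z hz
  choose J u hu hsub using hbox
  have hnh : ∀ z ∈ (Set.univ : Set (∀ i, P i)), (J z : Set I).pi (u z) ∈ nhds z := by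
    intro z _
    apply IsOpen.mem_nhds
    · exact isOpen_set_pi (Finset.finite_toSet _) (fun i hi => (hu z i hi).1)
    · intro i hi
      exact (hu z i hi).2
  obtain ⟨t, _, ht⟩ := isCompact_univ.elim_nhds_subcover
    (fun z => (J z : Set I).pi (u z)) hnh
  refine ⟨t.biUnion J, fun x y hxy => ?_⟩
  have hx := ht (Set.mem_univ x)
  simp only [Set.mem_iUnion] at hx
  obtain ⟨z, hzt, hxz⟩ := hx
  have hyz : y ∈ (J z : Set I).pi (u z) := by
    intro i hi
    have h1 := hxz i hi
    have h2 : x i = y i := hxy i (Finset.mem_biUnion.2 ⟨z, hzt, hi⟩)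
    rw [← h2]
    exact h1
  have h1 : |G x - G z| < ε / 2 := hsub z hxz
  have h2 : |G y - G z| < ε / 2 := hsub z hyz
  rw [abs_lt] at h1 h2 ⊢
  constructor <;> linarith [h1.1, h1.2, h2.1, h2.2]

end TI
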