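import Pool.Agent.TI.Agree
import Pool.Agent.TI.Supp
import Pool.Agent.TI.Root

namespace TI

universe u v w

/-- One step of the recursion in `core`. -/
theorem core_step (W : Type v) [LinearOrder W] [NoMaxOrder W]
    (I : Type w) (P : I → Type u)
    [∀ i, TopologicalSpace (P i)] [∀ i, CompactSpace (P i)] [∀ i, T2Space (P i)]
    (hC : ∀ i, PropC W (P i)) (a : W → ∀ i, P i) (c : ∀ i, P i)
    (hc : ∀ w, c ∈ closure (a '' Set.Ici w))
    (J : W → W → Finset I) (R1 : W → Finset I) (R2 : Finset I)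
    (hR1 : ∀ α : W, ∀ C : Set I, C.Countable → ∀ w : W,
      ∃ s ∈ {β : W | α < β}, w ≤ s ∧ ∀ i ∈ J α s, i ∈ C → i ∈ R1 α)
    (hR2 : ∀ C : Set I, C.Countable → ∀ w : W,
      ∃ s ∈ (Set.univ : Set W), w ≤ s ∧ ∀ i ∈ R1 s, i ∈ C → i ∈ R2)
    (C : Set I) (hCC : C.Countable) (b : W) :
    ∃ (α β : W) (z : ∀ i, P i), b ≤ α ∧ α < β ∧ z ∈ closure (a '' Set.Ico α β) ∧
      (∀ i ∈ R2, z i = c i) ∧ ∀ i ∈ J α β, i ∈ C → i ∈ R2 := by
  obtain ⟨α, -, hbα, hα⟩ := hR2 C hCC b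
  have hm : Monotone fun β : W => closure (a '' Set.Ico α β) := by
    intro β β' h
    exact closure_mono (Set.image_mono (Set.Ico_subset_Ico_right h))
  have hcl : c ∈ closure (⋃ β : W, closure (a '' Set.Ico α β)) := by
    refine closure_mono ?_ (hc α)
    rintro _ ⟨γ, hγ, rfl⟩
    obtain ⟨β, hβ⟩ := exists_gt γ
    exact Set.mem_iUnion.2 ⟨β, subset_closure ⟨γ, ⟨hγ, hβ⟩, rfl⟩⟩
  obtain ⟨β', z, hz, hzc⟩ := exists_agree W I P hC R2 _ hm (fun _ => isClosed_closure) c hcl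
  obtain ⟨β, hαβ, hβ'β, hβ⟩ := hR1 α C hCC β'
  exact ⟨α, β, z, hbα, hαβ, hm hβ'β hz, hzc, fun i hi hiC => hα i (hβ i hi hiC) hiC⟩

/-- TI-4. The core of the argument. -/
theorem core (W : Type v) [LinearOrder W] [Nonempty W] [NoMaxOrder W] (hW : CofBig W)
    (I : Type w) (P : I → Type u)
    [∀ i, TopologicalSpace (P i)] [∀ i, CompactSpace (P i)] [∀ i, T2Space (P i)]
    (hC : ∀ i, PropC W (P i)) (a : W → ∀ i, P i)
    (G : W → W → ℕ → (∀ i, P i) → ℝ) (hG : ∀ α β k, Continuous (G α β k))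
    (G0 : (∀ i, P i) → ℝ) (hG0 : Continuous G0)
    (h1 : ∀ α β k γ, α ≤ γ → γ < β → G α β k (a γ) = 1) (h0 : ∀ γ, G0 (a γ) = 0) :
    ∃ α β : ℕ → W, (∀ n, α n < β n) ∧ (∀ n, β n ≤ α (n + 1)) ∧
      ∃ x : ∀ i, P i, ∀ n, 1 / 2 ≤ |G (α n) (β n) n x - G0 x| := by
  classical
  have hs : ∀ (α β : W) (k : ℕ), ∃ J : Finset I, ∀ x y : ∀ i, P i, (∀ i ∈ J, x i = y i) →
      |G α β k x - G α β k y| < 1 / 8 ∧ |G0 x - G0 y| < 1 / 8 := by
    intro α β k
    obtain ⟨J, hJ⟩ := exists_supp I P (G α β k) (hG α β k) (1 / 8) (by norm_num)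
    obtain ⟨J0, hJ0⟩ := exists_supp I P G0 hG0 (1 / 8) (by norm_num)
    refine ⟨J ∪ J0, fun x y h => ⟨hJ x y fun i hi => h i (Finset.mem_union_left _ hi),
      hJ0 x y fun i hi => h i (Finset.mem_union_right _ hi)⟩⟩
  choose J hJ using hs
  have hr1 : ∀ (k : ℕ) (α : W), ∃ R : Finset I, ∀ C : Set I, C.Countable → ∀ w : W,
      ∃ s ∈ {β : W | α < β}, w ≤ s ∧ ∀ i ∈ J α s k, i ∈ C → i ∈ R := by
    intro k α
    refine exists_root W hW I (fun s => J α s k) {β : W | α < β} ?_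
    intro w
    obtain ⟨s, hs⟩ := exists_gt (max α w)
    exact ⟨s, lt_of_le_of_lt (le_max_left _ _) hs, (le_max_right α w).trans hs.le⟩
  choose R1 hR1 using hr1
  have hr2 : ∀ k : ℕ, ∃ R : Finset I, ∀ C : Set I, C.Countable → ∀ w : W,
      ∃ s ∈ (Set.univ : Set W), w ≤ s ∧ ∀ i ∈ R1 k s, i ∈ C → i ∈ R := fun k =>
    exists_root W hW I (fun s => R1 k s) Set.univ (fun w => ⟨w, trivial, le_rfl⟩)
  choose R2 hR2 using hr2
  obtain ⟨D, hDdef⟩ : ∃ D : Set I, D = ⋃ k, ((R2 k : Finset I) : Set I) := ⟨_, rfl⟩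
  have hD : D.Countable := by
    rw [hDdef]
    exact Set.countable_iUnion fun k => (R2 k).countable_toSet
  have hRD : ∀ k, ∀ i ∈ R2 k, i ∈ D := by
    intro k i hi
    rw [hDdef]
    exact Set.mem_iUnion.2 ⟨k, hi⟩
  obtain ⟨c, hc⟩ : ∃ c : ∀ i, P i, ∀ w, c ∈ closure (a '' Set.Ici w) := by
    obtain ⟨c, hc⟩ := exists_clusterPt_of_compactSpace (Filter.map a Filter.atTop)
    refine ⟨c, fun w => ?_⟩
    rw [mem_closure_iff_clusterPt]
    refine hc.mono ?_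
    rw [Filter.le_principal_iff]
    exact Filter.image_mem_map (Filter.mem_atTop w)
  have hstep : ∀ (n : ℕ) (b : W) (E : Finset I), ∃ (α β : W) (z : ∀ i, P i),
      b ≤ α ∧ α < β ∧ z ∈ closure (a '' Set.Ico α β) ∧ (∀ i ∈ R2 n, z i = c i) ∧
      ∀ i ∈ J α β n, i ∈ D ∪ (E : Set I) → i ∈ R2 n := by
    intro n b E
    exact core_step W I P hC a c hc (fun α β => J α β n) (R1 n) (R2 n) (hR1 n) (hR2 n)
      (D ∪ (E : Set I)) (hD.union E.countable_toSet) b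
  choose fα fβ fz k1 k2 k3 k4 k5 using hstep
  obtain ⟨w0⟩ := ‹Nonempty W›
  let st : ℕ → W × Finset I := fun n => Nat.rec (w0, ∅)
    (fun n p => (fβ n p.1 p.2, p.2 ∪ J (fα n p.1 p.2) (fβ n p.1 p.2) n)) n
  have hst : ∀ n, st (n + 1) = (fβ n (st n).1 (st n).2,
      (st n).2 ∪ J (fα n (st n).1 (st n).2) (fβ n (st n).1 (st n).2) n) := fun n => rfl
  obtain ⟨α, hα⟩ : ∃ α : ℕ → W, ∀ n, α n = fα n (st n).1 (st n).2 := ⟨_, fun _ => rfl⟩
  obtain ⟨β, hβ⟩ : ∃ β : ℕ → W, ∀ n, β n = fβ n (st n).1 (st n).2 := ⟨_, fun _ => rfl⟩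
  obtain ⟨z, hz⟩ : ∃ z : ℕ → ∀ i, P i, ∀ n, z n = fz n (st n).1 (st n).2 := ⟨_, fun _ => rfl⟩
  have e1 : ∀ n, (st (n + 1)).1 = β n := fun n => by rw [hst, hβ]
  have e2 : ∀ n, (st (n + 1)).2 = (st n).2 ∪ J (α n) (β n) n := fun n => by rw [hst, hβ, hα]
  have hmono : ∀ n m, n ≤ m → (st n).2 ⊆ (st m).2 := by
    intro n m h
    induction m, h using Nat.le_induction with
    | base => exact Finset.Subset.refl _
    | succ m _ ih =>
      rw [e2]
      exact ih.trans Finset.subset_union_left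
  have hJE : ∀ m n, m < n → J (α m) (β m) m ⊆ (st n).2 := by
    intro m n h
    refine Finset.Subset.trans ?_ (hmono (m + 1) n h)
    rw [e2]
    exact Finset.subset_union_right
  have hαβ : ∀ n, α n < β n := fun n => by
    rw [hα, hβ]
    exact k2 n _ _
  have hβα : ∀ n, β n ≤ α (n + 1) := fun n => by
    rw [hα (n + 1), ← e1 n]
    exact k1 (n + 1) _ _
  have hzcl : ∀ n, z n ∈ closure (a '' Set.Ico (α n) (β n)) := fun n => by
    rw [hα, hβ, hz]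
    exact k3 n _ _
  have hzc : ∀ n, ∀ i ∈ R2 n, z n i = c i := fun n => by
    rw [hz]
    exact k4 n _ _
  have hroot : ∀ n, ∀ i ∈ J (α n) (β n) n, i ∈ D ∪ ((st n).2 : Set I) → i ∈ R2 n := fun n => by
    rw [hα, hβ]
    exact k5 n _ _
  refine ⟨α, β, hαβ, hβα, ?_⟩
  let x : ∀ i, P i := fun i =>
    if h : ∃ n, i ∈ J (α n) (β n) n ∧ i ∉ D then z (Nat.find h) i else c i
  have hx : ∀ n, ∀ i ∈ J (α n) (β n) n, x i = z n i := by
    intro n i hi
    by_cases hiD : i ∈ D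
    · have hno : ¬ ∃ n, i ∈ J (α n) (β n) n ∧ i ∉ D := fun ⟨_, _, h⟩ => h hiD
      have : x i = c i := dif_neg hno
      rw [this, hzc n i (hroot n i hi (Or.inl hiD))]
    · have hyes : ∃ n, i ∈ J (α n) (β n) n ∧ i ∉ D := ⟨n, hi, hiD⟩
      have hxi : x i = z (Nat.find hyes) i := dif_pos hyes
      have hfn : Nat.find hyes = n := by
        have hle : Nat.find hyes ≤ n := Nat.find_min' hyes ⟨hi, hiD⟩
        rcases hle.lt_or_eq with hlt | heq
        · exfalso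
          have hmem := hJE _ _ hlt (Nat.find_spec hyes).1
          exact hiD (hRD n i (hroot n i hi (Or.inr hmem)))
        · exact heq
      rw [hxi, hfn]
  refine ⟨x, fun n => ?_⟩
  have hJn := hJ (α n) (β n) n x (z n) (hx n)
  have hone : G (α n) (β n) n (z n) = 1 := by
    have hcl : IsClosed {y : ∀ i, P i | G (α n) (β n) n y = 1} :=
      isClosed_eq (hG _ _ _) continuous_const
    have hsub : a '' Set.Ico (α n) (β n) ⊆ {y : ∀ i, P i | G (α n) (β n) n y = 1} := by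
      rintro _ ⟨γ, hγ, rfl⟩
      exact h1 _ _ _ _ hγ.1 hγ.2
    exact closure_minimal hsub hcl (hzcl n)
  have hzero : G0 (z n) = 0 := by
    have hcl : IsClosed {y : ∀ i, P i | G0 y = 0} := isClosed_eq hG0 continuous_const
    have hsub : a '' Set.Ico (α n) (β n) ⊆ {y : ∀ i, P i | G0 y = 0} := by
      rintro _ ⟨γ, hγ, rfl⟩
      exact h0 _
    exact closure_minimal hsub hcl (hzcl n)
  rw [hone, hzero] at hJn
  obtain ⟨g1, g2⟩ := hJn
  rw [abs_lt] at g1 g2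
  refine le_trans ?_ (le_abs_self _)
  linarith [g1.1, g2.2]

end TI
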