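import Mathlib

/-!
# Continuous images of products of compact spaces of small tightness: definitions
-/

namespace TI

universe u v

/-- `X` has property `C` for the linear order `W`: the union of an increasing family of closed
sets, indexed by `W`, is closed. -/
def PropC (W : Type v) [LinearOrder W] (X : Type u) [TopologicalSpace X] : Prop :=
  ∀ A : W → Set X, Monotone A → (∀ w, IsClosed (A w)) → IsClosed (⋃ w, A w)

/-- every countable subset of `W` is bounded above -/
def CofBig (W : Type v) [LinearOrder W] : Prop :=
  ∀ s : Set W, s.Countable → BddAbove s

end TI
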