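import Pool.Agent.TI.Defs

open Cardinal Filter Topology

namespace TI

universe u v

theorem func_clopen {Y : Type v} [TopologicalSpace Y] (g : Y → Ordinal.{u})
    (hg : Continuous g) (a b : Ordinal.{u}) : IsClopen {y | a < g y ∧ g y ≤ b} := by
  have h1 : {y | a < g y ∧ g y ≤ b} = g ⁻¹' Set.Icc (Order.succ a) b := by
    ext y
    simp only [Set.mem_preimage, Set.mem_Icc, Order.succ_le_iff]
    rfl
  have h2 : {y | a < g y ∧ g y ≤ b} = g ⁻¹' Set.Ioo a (Order.succ b) := by
    ext y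
    simp only [Set.mem_preimage, Set.mem_Ioo, Order.lt_succ_iff]
    rfl
  constructor
  · rw [h1]
    exact isClosed_Icc.preimage hg
  · rw [h2]
    exact isOpen_Ioo.preimage hg

/-- TI-6. The functions on a compact space with a closed `G_δ` subset which maps onto the ordinal
space `[0,κ]`. -/
theorem exists_func (κ : Cardinal.{u}) (hκ : ℵ₀ ≤ κ) (Z : Type v) [TopologicalSpace Z]
    [CompactSpace Z] [T2Space Z] (Y : Set Z) (hY : IsClosed Y) (hY' : IsGδ Y)
    (g : Y → Set.Iic κ.ord) (hg : Continuous g) (hgs : Function.Surjective g) :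
    ∃ (z : κ.ord.ToType → Z) (h : κ.ord.ToType → κ.ord.ToType → ℕ → Z → ℝ),
      (∀ α β k, Continuous (h α β k)) ∧
      (∀ α β k γ, α ≤ γ → γ < β → h α β k (z γ) = 1) ∧
      (∀ α β : ℕ → κ.ord.ToType, (∀ n, α n < β n) → (∀ n, β n ≤ α (n + 1)) →
        ∀ ζ : Z, Tendsto (fun n => h (α n) (β n) n ζ) atTop (𝓝 0)) := by
  classical
  obtain ⟨e, heκ, hemono⟩ : ∃ e : κ.ord.ToType → Ordinal.{u}, (∀ γ, e γ < κ.ord) ∧ StrictMono e :=
    ⟨fun γ => (Ordinal.ToType.mk.symm γ).1, fun γ => (Ordinal.ToType.mk.symm γ).2,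
      fun a b hab => Ordinal.ToType.mk.symm.strictMono hab⟩
  let G : Y → Ordinal.{u} := fun y => (g y).1
  have hG : Continuous G := continuous_subtype_val.comp hg
  choose y hy using fun γ : κ.ord.ToType =>
    hgs ⟨Order.succ (e γ), Order.succ_le_of_lt (heκ γ)⟩
  have hGy : ∀ γ, G (y γ) = Order.succ (e γ) := fun γ => congrArg Subtype.val (hy γ)
  -- the extension of the indicator functions
  have hF : ∀ α β : κ.ord.ToType, ∃ F : C(Z, ℝ), ∀ x : Y,
      F x = Set.indicator {x : Y | e α < G x ∧ G x ≤ e β} (fun _ => (1 : ℝ)) x := by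
    intro α β
    have hc : IsClopen {x : Y | e α < G x ∧ G x ≤ e β} := func_clopen G hG _ _
    have h1 : Continuous (Set.indicator {x : Y | e α < G x ∧ G x ≤ e β} (fun _ => (1 : ℝ))) := by
      refine continuous_indicator (fun a ha => ?_) continuousOn_const
      rw [hc.frontier_eq] at ha
      exact absurd ha (Set.notMem_empty a)
    obtain ⟨F, hF⟩ := ContinuousMap.exists_restrict_eq hY (⟨_, h1⟩ : C(Y, ℝ))
    exact ⟨F, fun x => DFunLike.congr_fun hF x⟩
  choose F hF using hF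
  -- the Urysohn functions
  obtain ⟨V, hVo, hV⟩ := isGδ_iff_eq_iInter_nat.1 hY'
  have hu : ∀ k : ℕ, ∃ w : C(Z, ℝ), (∀ x ∈ Y, w x = 1) ∧ ∀ x, (∃ m ≤ k, x ∉ V m) → w x = 0 := by
    intro k
    have ho : IsOpen (⋂ m ∈ Finset.range (k + 1), V m) := isOpen_biInter_finset fun m _ => hVo m
    obtain ⟨w, h1, h2, -⟩ := exists_continuous_zero_one_of_isClosed ho.isClosed_compl hY (by
      rw [Set.disjoint_left]
      intro x hx hxY
      apply hx
      rw [hV] at hxY
      rw [Set.mem_iInter] at hxY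
      exact Set.mem_iInter₂.2 fun m _ => hxY m)
    refine ⟨w, fun x hx => h2 hx, fun x hx => h1 ?_⟩
    obtain ⟨m, hm, hxm⟩ := hx
    intro hx'
    exact hxm (Set.mem_iInter₂.1 hx' m (Finset.mem_range.2 (by omega)))
  choose w hw1 hw0 using hu
  refine ⟨fun γ => (y γ : Z), fun α β k x => F α β x * w k x, ?_, ?_, ?_⟩
  · intro α β k
    exact (F α β).continuous.mul (w k).continuous
  · intro α β k γ hαγ hγβ
    simp only
    rw [hF α β (y γ), hw1 k _ (y γ).2, mul_one, Set.indicator_of_mem]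
    refine ⟨?_, ?_⟩
    · rw [hGy]
      exact lt_of_le_of_lt (hemono.monotone hαγ) (Order.lt_succ _)
    · rw [hGy]
      exact Order.succ_le_of_lt (hemono hγβ)
  · intro α β hαβ hβα ζ
    by_cases hζ : ζ ∈ Y
    · have hval : ∀ n, ¬ (e (α n) < G ⟨ζ, hζ⟩ ∧ G ⟨ζ, hζ⟩ ≤ e (β n)) →
          F (α n) (β n) ζ * w n ζ = 0 := by
        intro n hn
        have h1 := hF (α n) (β n) ⟨ζ, hζ⟩
        rw [Set.indicator_of_notMem (show (⟨ζ, hζ⟩ : Y) ∉
          {x : Y | e (α n) < G x ∧ G x ≤ e (β n)} from hn)] at h1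
        have h2 : F (α n) (β n) ζ = 0 := h1
        rw [h2, zero_mul]
      by_cases hex : ∃ n₀, e (α n₀) < G ⟨ζ, hζ⟩ ∧ G ⟨ζ, hζ⟩ ≤ e (β n₀)
      · obtain ⟨n₀, -, h2⟩ := hex
        have hmono : ∀ n, n₀ + 1 ≤ n → β n₀ ≤ α n := by
          intro n hn
          induction n, hn using Nat.le_induction with
          | base => exact hβα n₀
          | succ n _ ih => exact ih.trans ((hαβ n).le.trans (hβα n))
        refine tendsto_const_nhds.congr' ?_
        filter_upwards [eventually_ge_atTop (n₀ + 1)] with n hn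
        refine (hval n fun h3 => ?_).symm
        exact absurd (lt_of_le_of_lt (hemono.monotone (hmono n hn)) h3.1) (not_lt.2 h2)
      · refine tendsto_const_nhds.congr' ?_
        filter_upwards with n
        exact (hval n fun h3 => hex ⟨n, h3⟩).symm
    · rw [hV, Set.mem_iInter] at hζ
      push Not at hζ
      obtain ⟨m, hm⟩ := hζ
      refine tendsto_const_nhds.congr' ?_
      filter_upwards [eventually_ge_atTop m] with n hn
      rw [hw0 n ζ ⟨m, hn, hm⟩, mul_zero]

end TI
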