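import Pool.Agent.TI.Defs

open Cardinal

namespace TI

universe u

/-- subsets of cardinality less than `κ` are bounded above -/
theorem bddAbove_of_lt (κ : Cardinal.{u}) (hκ : κ.IsRegular) (s : Set κ.ord.ToType)
    (hs : #s < κ) : BddAbove s := by
  by_contra hb
  have hcf : IsCofinal s := by
    intro x
    by_contra hx
    push Not at hx
    exact hb ⟨x, fun y hy => (hx y hy).le⟩
  have h1 : Order.cof κ.ord.ToType ≤ #s := Order.cof_le hcf
  rw [Ordinal.cof_toType, hκ.cof_ord] at h1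
  exact absurd hs (not_lt.mpr h1)

/-- TI-5a. -/
theorem cofBig (κ : Cardinal.{u}) (hκ : κ.IsRegular) (hκ' : ℵ₀ < κ) :
    CofBig κ.ord.ToType := by
  intro s hs
  exact bddAbove_of_lt κ hκ s (lt_of_le_of_lt hs.le_aleph0 hκ')

/-- TI-5b. -/
theorem noMax (κ : Cardinal.{u}) (hκ : ℵ₀ ≤ κ) : NoMaxOrder κ.ord.ToType := by
  have h1 : 1 < κ.ord.cof := Ordinal.one_lt_cof_iff.mpr (Cardinal.isSuccLimit_ord hκ)
  have h2 : Order.cof κ.ord.ToType ≠ 1 := by
    rw [Ordinal.cof_toType]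
    exact h1.ne'
  have h3 : NoTopOrder κ.ord.ToType := Order.cof_ne_one_iff.mp h2
  refine ⟨fun a => ?_⟩
  obtain ⟨b, hb⟩ := h3.exists_not_le a
  exact ⟨b, not_le.mp hb⟩

/-- TI-5c. If every point of the closure of a set is in the closure of a subset of cardinality less
than `κ`, `κ` regular, then increasing unions of `κ` closed sets are closed. -/
theorem propC_of_tight (κ : Cardinal.{u}) (hκ : κ.IsRegular) (X : Type u) [TopologicalSpace X]
    (ht : ∀ (A : Set X) (x : X), x ∈ closure A → ∃ B ⊆ A, #B < κ ∧ x ∈ closure B) :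
    PropC κ.ord.ToType X := by
  intro A hA hAc
  rw [← closure_subset_iff_isClosed]
  intro x hx
  obtain ⟨B, hBA, hB, hxB⟩ := ht _ x hx
  have h1 : ∀ b : B, ∃ w, (b : X) ∈ A w := fun b => Set.mem_iUnion.mp (hBA b.2)
  choose f hf using h1
  have h2 : #(Set.range f) < κ := lt_of_le_of_lt Cardinal.mk_range_le hB
  obtain ⟨w, hw⟩ := bddAbove_of_lt κ hκ _ h2
  refine Set.mem_iUnion.mpr ⟨w, ?_⟩
  have h3 : B ⊆ A w := fun b hb => hA (hw ⟨⟨b, hb⟩, rfl⟩) (hf ⟨b, hb⟩)
  exact (closure_minimal h3 (hAc w)) hxB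

end TI
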