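import Pool.Agent.TI.Core
import Pool.Agent.TI.Tight
import Pool.Agent.TI.Func

open Cardinal Filter Topology Set

namespace TI

universe u v w

theorem main (κ : Cardinal.{u}) (hκ : κ.IsRegular) (hκ' : ℵ₀ < κ) (I : Type u) (P : I → Type u)
    [∀ i, TopologicalSpace (P i)] [∀ i, CompactSpace (P i)] [∀ i, T2Space (P i)]
    (ht : ∀ i (A : Set (P i)) (x : P i), x ∈ closure A → ∃ B ⊆ A, #B < κ ∧ x ∈ closure B)
    (K : Type w) [TopologicalSpace K] (q : (∀ i, P i) → K) (hq : Continuous q)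
    (hqs : Function.Surjective q)
    (Z : Type v) [TopologicalSpace Z] [CompactSpace Z] [T2Space Z] (Y : Set Z) (hY : IsClosed Y)
    (hY' : IsGδ Y) (g : Y → Set.Iic κ.ord) (hg : Continuous g) (hgs : Function.Surjective g)
    (e : Z → K) (he : IsEmbedding e)
    (φ : {f : range e → ℝ // Continuous f} → {f : K → ℝ // Continuous f}) (hφ : Continuous φ)
    (hext : ∀ (f : {f : range e → ℝ // Continuous f}) (y : range e), (φ f).1 y = f.1 y) :
    False := by
  obtain ⟨z, h, hc, h1, h0⟩ := exists_func κ hκ'.le Z Y hY hY' g hg hgs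
  haveI : NoMaxOrder κ.ord.ToType := noMax κ hκ'.le
  haveI : Nonempty κ.ord.ToType := by
    rw [← Cardinal.mk_ne_zero_iff, Cardinal.mk_toType, Cardinal.card_ord]
    exact (Cardinal.aleph0_pos.trans hκ').ne'
  -- functions on `range e`
  let τ : Z ≃ₜ range e := he.toHomeomorph
  have hτ : ∀ ζ : Z, ((τ ζ : range e) : K) = e ζ := fun ζ => rfl
  let F : (κ.ord.ToType → κ.ord.ToType → ℕ → {f : range e → ℝ // Continuous f}) :=
    fun α β k => ⟨fun y => h α β k (τ.symm y), (hc α β k).comp τ.symm.continuous⟩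
  let F0 : {f : range e → ℝ // Continuous f} := ⟨fun _ => 0, continuous_const⟩
  have hval : ∀ (f : {f : range e → ℝ // Continuous f}) (ζ : Z), (φ f).1 (e ζ) = f.1 (τ ζ) :=
    fun f ζ => hext f (τ ζ)
  choose a ha using fun γ => hqs (e (z γ))
  obtain ⟨α, β, hαβ, hβα, x, hx⟩ := core κ.ord.ToType (cofBig κ hκ hκ') I P
    (fun i => propC_of_tight κ hκ (P i) (ht i)) a
    (fun α β k p => (φ (F α β k)).1 (q p)) (fun α β k => (φ (F α β k)).2.comp hq)
    (fun p => (φ F0).1 (q p)) ((φ F0).2.comp hq)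
    (by
      intro α β k γ hαγ hγβ
      show (φ (F α β k)).1 (q (a γ)) = 1
      rw [ha, hval]
      show h α β k (τ.symm (τ (z γ))) = 1
      rw [τ.symm_apply_apply]
      exact h1 α β k γ hαγ hγβ)
    (by
      intro γ
      show (φ F0).1 (q (a γ)) = 0
      rw [ha, hval])
  have hlim : Tendsto (fun n => F (α n) (β n) n) atTop (𝓝 F0) := by
    rw [tendsto_subtype_rng, tendsto_pi_nhds]
    intro y
    exact h0 α β hαβ hβα (τ.symm y)
  have hlim2 : Tendsto (fun n => (φ (F (α n) (β n) n)).1 (q x)) atTop (𝓝 ((φ F0).1 (q x))) := by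
    have h3 := (hφ.tendsto F0).comp hlim
    have h4 := (continuous_subtype_val.tendsto (φ F0)).comp h3
    exact (tendsto_pi_nhds.1 h4) (q x)
  have h5 := (tendsto_sub_nhds_zero_iff.2 hlim2).abs
  rw [abs_zero] at h5
  have h6 := (h5.eventually (gt_mem_nhds (show (0 : ℝ) < 1 / 2 by norm_num))).exists
  obtain ⟨n, hn⟩ := h6
  exact absurd (hx n) (not_le.2 hn)

end TI
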